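import Pool.Agent.Helper87.GE.Defs

/-!
# GE, block E1: sublevel sets of polynomials with at most one large coefficient
-/

set_option autoImplicit false
open MeasureTheory Set Filter Topology
open Pool.Agent.Helper78.KD
open Pool.Agent.Helper18.KD (par idx pt)
open Pool.Agent.Helper82.FK (e)
open Pool.Agent.Helper18.GP (gp nm)
open Pool.Agent.Helper87.GP (Z fz cut)

namespace Pool.Agent.GE

open Pool.Agent.Helper18.GP (F Cs KK fc fc_analytic fc_bound fc_zero fc_eq analytic_F iteratedDeriv_F hasDerivAt_F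
  order_ge exists_ne bd bd_nonneg summable_bd term_le F_le cont_F cf F_cf chop_meas)

namespace E1

/-- Jensen's inequality for an analytic function on the unit disc -/
theorem jens {a L : ℝ} (ha : 1 < a) {f : ℂ → ℂ} (hf : AnalyticOnNhd ℂ f (Metric.ball 0 1)) (h0 : 1 ≤ ‖f 0‖)
    (hL : 1 ≤ L) (hb : ∀ z : ℂ, ‖z‖ ≤ (√a)⁻¹ → ‖f z‖ ≤ L) {x : ℝ} (hx : a ≤ x) {n : ℕ}
    (hn : (n : ℕ∞) ≤ analyticOrderAt f ((x⁻¹ : ℝ) : ℂ)) : n ≤ ⌊Real.log L / Real.log (√a)⌋₊ := by
  have ha0 : 0 < a := by linarith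
  have hs1 : 1 < √a := by
    rw [Real.lt_sqrt (by norm_num)]
    simpa using ha
  have hs0 : 0 < √a := by linarith
  set R : ℝ := (√a)⁻¹ with hR
  have hR0 : 0 < R := by positivity
  have hR1 : R < 1 := inv_lt_one_of_one_lt₀ hs1
  have hrR : a⁻¹ < R := by
    rw [hR]
    refine inv_strictAnti₀ hs0 ?_
    nlinarith [Real.mul_self_sqrt ha0.le]
  have hsub : Metric.closedBall (0 : ℂ) |R| ⊆ Metric.ball 0 1 := by
    rw [abs_of_pos hR0]
    exact Metric.closedBall_subset_ball hR1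
  have hAn := hf.mono hsub
  have h00 : f 0 ≠ 0 := by
    intro h
    rw [h, norm_zero] at h0
    linarith
  have h1 := AnalyticOnNhd.sum_divisor_le (c := (0 : ℂ)) (r := a⁻¹) (R := R) (M := L) (f := f)
    (abs_pos.2 (by positivity)) (by rw [abs_of_pos (by positivity), abs_of_pos hR0]; exact hrR) hL hAn h00 (fun z hz => by
      refine hb z ?_
      rw [mem_sphere_zero_iff_norm, abs_of_pos hR0] at hz
      exact hz.le)
  have h2 : R / a⁻¹ = √a := by
    rw [hR, div_inv_eq_mul]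
    rw [inv_mul_eq_iff_eq_mul₀ hs0.ne', Real.mul_self_sqrt ha0.le]
  rw [h2] at h1
  have hlog : 0 < Real.log (√a) := Real.log_pos hs1
  have h3 : Real.log (L / ‖f 0‖) ≤ Real.log L :=
    Real.log_le_log (by positivity) (div_le_self (by positivity) h0)
  have hxc : ((x⁻¹ : ℝ) : ℂ) ∈ Metric.closedBall (0 : ℂ) |a⁻¹| := by
    have hx0 : 0 < x := by linarith
    rw [mem_closedBall_zero_iff, Complex.norm_real, Real.norm_eq_abs, abs_of_pos (inv_pos.2 hx0), abs_of_pos (inv_pos.2 ha0)]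
    exact inv_anti₀ ha0 hx
  have hsub2 : Metric.closedBall (0 : ℂ) |a⁻¹| ⊆ Metric.closedBall (0 : ℂ) |R| := by
    rw [abs_of_pos (by positivity), abs_of_pos hR0]
    exact Metric.closedBall_subset_closedBall hrR.le
  have hAn2 := hAn.mono hsub2
  set D := MeromorphicOn.divisor f (Metric.closedBall (0 : ℂ) |a⁻¹|) with hD
  have hpos : ∀ u, 0 ≤ D u := fun u => by
    have := MeromorphicOn.AnalyticOnNhd.divisor_nonneg hAn2
    exact this u
  have hfin : (Function.support D).Finite := D.finiteSupport (isCompact_closedBall _ _)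
  have h5 : D ((x⁻¹ : ℝ) : ℂ) ≤ ∑ᶠ u, D u := single_le_finsum _ hfin hpos
  have h6 : (n : ℤ) ≤ D ((x⁻¹ : ℝ) : ℂ) := by
    rw [hD, MeromorphicOn.AnalyticOnNhd.divisor_apply hAn2 hxc]
    have htop : analyticOrderAt f ((x⁻¹ : ℝ) : ℂ) ≠ ⊤ := by
      intro htop
      have h7 := hf.eqOn_zero_of_preconnected_of_eventuallyEq_zero
        (convex_ball (0 : ℂ) 1).isPreconnected (hsub (hsub2 hxc)) (analyticOrderAt_eq_top.1 htop)
      exact h00 (h7 (Metric.mem_ball_self one_pos))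
    obtain ⟨m, hm⟩ := ENat.ne_top_iff_exists.1 htop
    rw [← hm] at hn ⊢
    have h8 : n ≤ m := by exact_mod_cast hn
    have h9 : (((m : ℕ∞).map (fun k : ℕ => (k : ℤ))) : WithTop ℤ).untop₀ = (m : ℤ) := by simp
    rw [h9]
    exact_mod_cast h8
  have h7 : ((n : ℤ) : ℝ) ≤ Real.log L / Real.log (√a) := by
    have h8 : ((n : ℤ) : ℝ) ≤ ((∑ᶠ u, D u : ℤ) : ℝ) := by exact_mod_cast h6.trans h5
    refine h8.trans (h1.trans ?_)
    exact div_le_div_of_nonneg_right h3 hlog.le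
  exact Nat.le_floor (by simpa using h7)

/-- the order of `z f' - r f` -/
theorem order_diff {f : ℂ → ℂ} {z₀ : ℂ} (hf : AnalyticAt ℂ f z₀) {n : ℕ} (hn : ((n + 1 : ℕ) : ℕ∞) ≤ analyticOrderAt f z₀)
    (s : ℂ) : (n : ℕ∞) ≤ analyticOrderAt (fun z => z * deriv f z * s - f z) z₀ := by
  obtain ⟨g, hg, hge⟩ := (natCast_le_analyticOrderAt hf).1 hn
  have hA : AnalyticAt ℂ (fun z => z * deriv f z * s - f z) z₀ :=
    ((analyticAt_id.mul hf.deriv).mul analyticAt_const).sub hf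
  refine (natCast_le_analyticOrderAt hA).2
    ⟨fun z => z * (((n : ℂ) + 1) * g z + (z - z₀) * deriv g z) * s - (z - z₀) * g z, ?_, ?_⟩
  · exact ((analyticAt_id.mul ((analyticAt_const.mul hg).add ((analyticAt_id.sub analyticAt_const).mul hg.deriv))).mul
      analyticAt_const).sub ((analyticAt_id.sub analyticAt_const).mul hg)
  · have hge' : f =ᶠ[𝓝 z₀] fun z => (z - z₀) ^ (n + 1) • g z := hge
    have h1 : deriv f =ᶠ[𝓝 z₀] deriv (fun z => (z - z₀) ^ (n + 1) • g z) := hge'.deriv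
    filter_upwards [hge, h1, hg.eventually_analyticAt] with z h2 h3 h4
    have h5 : HasDerivAt (fun z => (z - z₀) ^ (n + 1) • g z)
        (((n + 1 : ℕ) : ℂ) * (z - z₀) ^ n * 1 * g z + (z - z₀) ^ (n + 1) * deriv g z) z := by
      have h6 : HasDerivAt (fun z : ℂ => (z - z₀) ^ (n + 1)) (((n + 1 : ℕ) : ℂ) * (z - z₀) ^ n * 1) z := by
        have := ((hasDerivAt_id z).sub_const z₀).pow (n + 1)
        exact this
      have h7 := h6.mul h4.differentiableAt.hasDerivAt
      exact h7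
    rw [h3, h5.deriv, h2]
    simp only [smul_eq_mul]
    push_cast
    ring

/-- the coefficient number `r` left out -/
def del (r : ℕ) (c : ℕ → ℝ) (j : ℕ) : ℝ := if j = r then 0 else c j

theorem fc_del {B : ℝ} {c : ℕ → ℝ} (hc : ∀ j, |c j| ≤ B) (r : ℕ) {z : ℂ} (hz : ‖z‖ < 1) :
    fc c z = fc (del r c) z + (c r : ℂ) * z ^ r := by
  rw [fc_eq, fc_eq]
  have hB : 0 ≤ B := (abs_nonneg _).trans (hc 0)
  have hs : Summable fun j : ℕ => (del r c j : ℂ) * z ^ j := by
    refine Summable.of_norm_bounded ((summable_geometric_of_lt_one (norm_nonneg z) hz).mul_left B) fun j => ?_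
    rw [norm_mul, norm_pow, Complex.norm_real, Real.norm_eq_abs]
    refine mul_le_mul_of_nonneg_right ?_ (by positivity)
    unfold del
    split_ifs
    · rw [abs_zero]; exact hB
    · exact hc j
  have hs2 : Summable fun j : ℕ => if j = r then (c r : ℂ) * z ^ r else 0 := by
    exact (hasSum_ite_eq r _).summable
  have h1 : (fun j : ℕ => (c j : ℂ) * z ^ j) =
      fun j : ℕ => (del r c j : ℂ) * z ^ j + if j = r then (c r : ℂ) * z ^ r else 0 := by
    funext j
    unfold del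
    split_ifs with h
    · rw [h]; simp
    · simp
  rw [h1, hs.tsum_add hs2, tsum_ite_eq]

/-- **Not all derivatives of order at most `KE a H` vanish.** -/
theorem exists_neE {a H H' : ℝ} (ha : 1 < a) (hH : 1 ≤ H) {c : ℕ → ℝ} (hc : c ∈ Ds H H') {x : ℝ} (hx : a ≤ x) :
    ∃ k, k ≤ KE a H ∧ F k c x ≠ 0 := by
  have ha0 : 0 < a := by linarith
  have hs1 : 1 < √a := by
    rw [Real.lt_sqrt (by norm_num)]
    simpa using ha
  have hs0 : 0 < √a := by linarith
  have hlog : 0 < Real.log (√a) := Real.log_pos hs1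
  set R : ℝ := (√a)⁻¹ with hR
  have hR0 : 0 < R := by positivity
  have hR1 : R < 1 := inv_lt_one_of_one_lt₀ hs1
  obtain ⟨hc0, hcH', hc2⟩ := hc
  have h1R : 0 < 1 - R := by linarith
  by_cases hbig : ∃ r, 1 ≤ r ∧ H < |c r|
  · obtain ⟨r, hr1, hr⟩ := hbig
    by_contra hcon
    push Not at hcon
    have hx1 : 1 < x := lt_of_lt_of_le ha hx
    have hG := analytic_F hcH' x hx1
    have h1 : ((KE a H + 1 : ℕ) : ℕ∞) ≤ analyticOrderAt (F 0 c) x := by
      rw [natCast_le_analyticOrderAt_iff_iteratedDeriv_eq_zero hG]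
      intro i hi
      rw [iteratedDeriv_F hx1 hcH']
      exact hcon i (by omega)
    have h2 := order_ge hcH' hx1 h1 hG
    have hxb : ((x⁻¹ : ℝ) : ℂ) ∈ Metric.ball (0 : ℂ) 1 := by
      rw [mem_ball_zero_iff, Complex.norm_real, Real.norm_eq_abs, abs_of_pos (by positivity)]
      exact inv_lt_one_of_one_lt₀ hx1
    have hdel : ∀ j, |del r c j| ≤ H := by
      intro j
      unfold del
      split_ifs with h
      · rw [abs_zero]; linarith
      · exact (hc2 j r h).resolve_right (not_le.2 hr)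
    have hA := fc_analytic hdel
    set g : ℂ → ℂ := fun z => z * deriv (fc (del r c)) z * (r : ℂ)⁻¹ - fc (del r c) z with hg
    have hgA : AnalyticOnNhd ℂ g (Metric.ball 0 1) := fun z hz =>
      ((analyticAt_id.mul (hA z hz).deriv).mul analyticAt_const).sub (hA z hz)
    have hr0 : (r : ℂ) ≠ 0 := by
      have : r ≠ 0 := by omega
      exact_mod_cast this
    have heq : (fun z => z * deriv (fc c) z * (r : ℂ)⁻¹ - fc c z) =ᶠ[𝓝 ((x⁻¹ : ℝ) : ℂ)] g := by
      have h3 : ∀ᶠ z in 𝓝 ((x⁻¹ : ℝ) : ℂ), z ∈ Metric.ball (0 : ℂ) 1 := Metric.isOpen_ball.mem_nhds hxb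
      filter_upwards [h3] with z hz
      have h4 : fc c =ᶠ[𝓝 z] fun z => fc (del r c) z + (c r : ℂ) * z ^ r := by
        filter_upwards [Metric.isOpen_ball.mem_nhds hz] with w hw
        exact fc_del hcH' r (by simpa using hw)
      have h5 : HasDerivAt (fun z => fc (del r c) z + (c r : ℂ) * z ^ r)
          (deriv (fc (del r c)) z + (c r : ℂ) * ((r : ℂ) * z ^ (r - 1))) z :=
        (hA z hz).differentiableAt.hasDerivAt.add ((hasDerivAt_pow r z).const_mul _)
      have h6 : z * z ^ (r - 1) = z ^ r := by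
        rw [← pow_succ']
        congr 1
        omega
      rw [h4.deriv_eq, h5.deriv, fc_del hcH' r (by simpa using hz), hg]
      have h7 : z * (deriv (fc (del r c)) z + (c r : ℂ) * ((r : ℂ) * z ^ (r - 1))) * (r : ℂ)⁻¹ =
          z * deriv (fc (del r c)) z * (r : ℂ)⁻¹ + (c r : ℂ) * z ^ r * ((r : ℂ) * (r : ℂ)⁻¹) := by
        rw [← h6]; ring
      rw [h7, mul_inv_cancel₀ hr0]
      ring
    have h3 : (KE a H : ℕ∞) ≤ analyticOrderAt g ((x⁻¹ : ℝ) : ℂ) := by
      rw [← analyticOrderAt_congr heq]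
      exact order_diff (fc_analytic hcH' _ hxb) h2 _
    have hL : 1 ≤ 5 * H / (1 - R) ^ 2 := by
      rw [le_div_iff₀ (by positivity)]
      nlinarith
    have h4 := jens ha (L := 5 * H / (1 - R) ^ 2) hgA (by
      have h5 : g 0 = -(c 0 : ℂ) := by
        rw [hg]
        simp only [zero_mul, zero_sub, fc_zero]
        unfold del
        rw [if_neg (by omega)]
      rw [h5, norm_neg, Complex.norm_real, Real.norm_eq_abs]
      exact hc0) hL (fun z hz => ?_) hx h3
    · unfold KE at h4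
      rw [← hR] at h4
      omega
    · -- the bound
      have hz1 : ‖z‖ ≤ R := hz
      set R' : ℝ := (1 + R) / 2 with hR'
      have h5 : ‖fc (del r c) z‖ ≤ H / (1 - R) := fc_bound hdel hR1 hz1
      have h6 : ‖deriv (fc (del r c)) z‖ ≤ (H / (1 - R')) / ((1 - R) / 2) := by
        refine Complex.norm_deriv_le_of_forall_mem_sphere_norm_le (by linarith) ?_ fun w hw => ?_
        · refine DifferentiableOn.diffContOnCl fun w hw => ?_
          refine (hA w ?_).differentiableAt.differentiableWithinAt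
          have h7 : w ∈ Metric.closedBall z ((1 - R) / 2) := Metric.closure_ball_subset_closedBall hw
          rw [mem_ball_zero_iff]
          rw [mem_closedBall_iff_norm] at h7
          have h8 : ‖w‖ ≤ ‖w - z‖ + ‖z‖ := by
            have := norm_add_le (w - z) z
            rwa [sub_add_cancel] at this
          linarith
        · refine fc_bound hdel (by rw [hR']; linarith) ?_
          rw [mem_sphere_iff_norm] at hw
          have h8 : ‖w‖ ≤ ‖w - z‖ + ‖z‖ := by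
            have := norm_add_le (w - z) z
            rwa [sub_add_cancel] at this
          rw [hR']
          linarith
      have h7 : (H / (1 - R')) / ((1 - R) / 2) = 4 * H / (1 - R) ^ 2 := by
        have : 1 - R' = (1 - R) / 2 := by rw [hR']; ring
        rw [this]
        field_simp
        norm_num
      rw [h7] at h6
      have h8 : ‖g z‖ ≤ ‖z * deriv (fc (del r c)) z * (r : ℂ)⁻¹‖ + ‖fc (del r c) z‖ := norm_sub_le _ _
      have h9 : ‖z * deriv (fc (del r c)) z * (r : ℂ)⁻¹‖ ≤ 4 * H / (1 - R) ^ 2 := by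
        rw [norm_mul, norm_mul, norm_inv]
        have h10 : ‖(r : ℂ)‖⁻¹ ≤ 1 := by
          rw [Complex.norm_natCast]
          have : (1 : ℝ) ≤ r := by exact_mod_cast hr1
          exact inv_le_one_of_one_le₀ this
        calc ‖z‖ * ‖deriv (fc (del r c)) z‖ * ‖(r : ℂ)‖⁻¹ ≤ 1 * (4 * H / (1 - R) ^ 2) * 1 := by
              refine mul_le_mul (mul_le_mul (by linarith) h6 (norm_nonneg _) zero_le_one) h10 (by positivity) (by positivity)
          _ = _ := by ring
      have h11 : H / (1 - R) ≤ H / (1 - R) ^ 2 := by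
        refine div_le_div_of_nonneg_left (by linarith) (by positivity) ?_
        nlinarith
      have h12 : 4 * H / (1 - R) ^ 2 + H / (1 - R) ^ 2 = 5 * H / (1 - R) ^ 2 := by ring
      linarith
  · push Not at hbig
    -- only the coefficient number `0` may be large
    have hA0 : 0 < |c 0| := by linarith
    have hmem : (fun j => c j / |c 0|) ∈ Cs H := by
      refine ⟨?_, fun j => ?_⟩
      · rw [abs_div, abs_abs, div_self hA0.ne']
      · rw [abs_div, abs_abs, div_le_iff₀ hA0]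
        rcases Nat.eq_zero_or_pos j with hj | hj
        · rw [hj]
          nlinarith
        · have := hbig j hj
          nlinarith [abs_nonneg (c j)]
    obtain ⟨k, hk, hne⟩ := exists_ne ha hmem hx
    refine ⟨k, hk.trans ?_, fun h => hne ?_⟩
    · unfold KK KE
      refine (Nat.floor_le_floor ?_).trans (Nat.le_succ _)
      refine div_le_div_of_nonneg_right (Real.log_le_log (by positivity) ?_) hlog.le
      rw [div_le_div_iff₀ h1R (by positivity)]
      have h3 : (1 - R) ^ 2 ≤ 1 - R := by nlinarith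
      have h4 : H * (1 - R) ^ 2 ≤ H * (1 - R) := mul_le_mul_of_nonneg_left h3 (by linarith)
      have h5 : 0 ≤ H * (1 - R) := by positivity
      nlinarith
    · have h3 : F k (fun j => c j / |c 0|) x = F k c x / |c 0| := by
        unfold F
        rw [← tsum_div_const]
        refine tsum_congr fun j => ?_
        ring
      rw [h3, h, zero_div]

theorem Ds_sub (H H' : ℝ) : Ds H H' ⊆ Cs H' := fun c hc => ⟨hc.1, hc.2.1⟩

theorem compact_Ds (H H' : ℝ) : IsCompact (Ds H H') := by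
  have h2 : IsClosed {c : ℕ → ℝ | ∀ i j, i ≠ j → |c i| ≤ H ∨ |c j| ≤ H} := by
    have h3 : {c : ℕ → ℝ | ∀ i j, i ≠ j → |c i| ≤ H ∨ |c j| ≤ H} =
        ⋂ i : ℕ, ⋂ j : ℕ, ⋂ _ : i ≠ j, ({c : ℕ → ℝ | |c i| ≤ H} ∪ {c : ℕ → ℝ | |c j| ≤ H}) := by
      ext c
      simp only [Set.mem_ofPred_eq, Set.mem_iInter, Set.mem_union]
    rw [h3]
    refine isClosed_iInter fun i => isClosed_iInter fun j => isClosed_iInter fun _ => ?_
    exact (isClosed_le (continuous_abs.comp (continuous_apply i)) continuous_const).union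
      (isClosed_le (continuous_abs.comp (continuous_apply j)) continuous_const)
  have h4 : Ds H H' = Cs H' ∩ {c : ℕ → ℝ | ∀ i j, i ≠ j → |c i| ≤ H ∨ |c j| ≤ H} := by
    ext c
    exact ⟨fun h => ⟨⟨h.1, h.2.1⟩, h.2.2⟩, fun h => ⟨h.1.1, h.1.2, h.2⟩⟩
  rw [h4]
  exact (Pool.Agent.Helper18.GP.compact_Cs H').inter_right h2

/-- Transversality. -/
theorem transvE {a : ℝ} (b : ℝ) (ha : 1 < a) {H : ℝ} (hH : 1 ≤ H) (H' : ℝ) :
    ∃ c₀ : ℝ, 0 < c₀ ∧ ∀ c ∈ Ds H H', ∀ x ∈ Icc a b, ∃ k, k ≤ KE a H ∧ c₀ ≤ |F k c x| := by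
  have hcomp : IsCompact (Ds H H' ×ˢ Icc a b) := (compact_Ds H H').prod isCompact_Icc
  have key := hcomp.induction_on (p := fun s => ∃ c₀ : ℝ, 0 < c₀ ∧ ∀ q ∈ s, q ∈ Ds H H' ×ˢ Icc a b →
      ∃ k, k ≤ KE a H ∧ c₀ ≤ |F k q.1 q.2|) ⟨1, one_pos, fun q hq => absurd hq (Set.notMem_empty q)⟩
    (fun s t hst ⟨c₀, h0, h⟩ => ⟨c₀, h0, fun q hq => h q (hst hq)⟩)
    (fun s t ⟨c₀, h0, h⟩ ⟨c₀', h0', h'⟩ => ⟨min c₀ c₀', lt_min h0 h0', fun q hq hqX => ?_⟩)
    (fun q hq => ?_)
  · obtain ⟨c₀, h0, h⟩ := key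
    exact ⟨c₀, h0, fun c hc x hx => h (c, x) ⟨hc, hx⟩ ⟨hc, hx⟩⟩
  · rcases hq with hq | hq
    · obtain ⟨k, h1, h2⟩ := h q hq hqX
      exact ⟨k, h1, (min_le_left _ _).trans h2⟩
    · obtain ⟨k, h1, h2⟩ := h' q hq hqX
      exact ⟨k, h1, (min_le_right _ _).trans h2⟩
  · obtain ⟨k, hkK, hk⟩ := exists_neE ha hH hq.1 hq.2.1
    have hpos : 0 < |F k q.1 q.2| := abs_pos.2 hk
    have hsub : Ds H H' ×ˢ Icc a b ⊆ Cs H' ×ˢ Icc a b := Set.prod_mono (Ds_sub H H') subset_rfl
    have h1 := ((cont_F b ha H' k).mono hsub).abs q hq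
    have h2 := h1.eventually (lt_mem_nhds (show |F k q.1 q.2| / 2 < |F k q.1 q.2| by linarith))
    refine ⟨_, h2, |F k q.1 q.2| / 2, by positivity, fun q' hq' _ => ⟨k, hkK, le_of_lt hq'⟩⟩

/-- constants of the class -/
theorem shortE {a : ℝ} (b : ℝ) (ha : 1 < a) {H : ℝ} (hH : 1 ≤ H) (H' : ℝ) (hH' : 0 ≤ H') :
    ∃ (μ η : ℝ), 0 < μ ∧ 0 < η ∧
      ∀ c ∈ Ds H H', ∀ p q, a ≤ p → p ≤ q → q ≤ b → q - p ≤ η → ∃ k ≤ KE a H, ∀ x ∈ Icc p q, μ ≤ |F k c x| := by
  obtain ⟨c₀, hc₀, htr⟩ := transvE b ha hH H'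
  set K : ℕ := KE a H with hK
  set B : ℝ := ∑ k ∈ Finset.range (K + 2), H' * ∑' j, bd k a j with hB
  have hnn : ∀ k, 0 ≤ H' * ∑' j, bd k a j := fun k =>
    mul_nonneg hH' (tsum_nonneg fun j => bd_nonneg (by linarith) k j)
  have hle : ∀ k, k ≤ K + 1 → H' * ∑' j, bd k a j ≤ B := fun k hk =>
    Finset.single_le_sum (f := fun k => H' * ∑' j, bd k a j) (fun k _ => hnn k) (Finset.mem_range.2 (by omega))
  have hB0 : 0 ≤ B := (hnn 0).trans (hle 0 (by omega))
  have hFB : ∀ k, k ≤ K + 1 → ∀ c ∈ Ds H H', ∀ x ∈ Icc a b, |F k c x| ≤ B := fun k hk c hc x hx =>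
    (F_le ha hx.1 hc.2.1 k).trans (hle k hk)
  refine ⟨c₀ / 2, c₀ / (2 * (B + 1)), by positivity, by positivity, ?_⟩
  intro c hc p q hp hpq hq hs
  obtain ⟨k, hk, hk2⟩ := htr c hc p ⟨hp, hpq.trans hq⟩
  refine ⟨k, hk, fun x hx => ?_⟩
  have hsub : Icc p q ⊆ Icc a b := Icc_subset_Icc hp hq
  have h1 := Convex.norm_image_sub_le_of_norm_hasDerivWithin_le (f := F k c) (f' := F (k + 1) c)
    (C := B) (s := Icc p q) (fun z hz => (hasDerivAt_F (lt_of_lt_of_le ha (hsub hz).1) hc.2.1 k).hasDerivWithinAt)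
    (fun z hz => by rw [Real.norm_eq_abs]; exact hFB (k + 1) (by omega) c hc z (hsub hz)) (convex_Icc p q)
    (show p ∈ Icc p q from ⟨le_rfl, hpq⟩) hx
  rw [Real.norm_eq_abs, Real.norm_eq_abs, abs_of_nonneg (by linarith [hx.1] : 0 ≤ x - p)] at h1
  have h2 : B * (x - p) ≤ c₀ / 2 := by
    have h3 : x - p ≤ c₀ / (2 * (B + 1)) := by linarith [hx.2]
    calc B * (x - p) ≤ (B + 1) * (c₀ / (2 * (B + 1))) := by
          refine mul_le_mul (by linarith) h3 (by linarith [hx.1]) (by linarith)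
      _ = c₀ / 2 := by field_simp
  have h4 : |F k c p| - |F k c x - F k c p| ≤ |F k c x| := by
    have := abs_sub_abs_le_abs_sub (F k c p) (F k c p - F k c x)
    rw [show F k c p - (F k c p - F k c x) = F k c x by ring, abs_sub_comm (F k c p) (F k c x)] at this
    linarith
  linarith

theorem cf_memE {H H' : ℝ} (hH : 0 ≤ H) (hH' : 0 ≤ H') {M : ℕ} {d : ℕ → ℝ} (hM : 1 ≤ |d M|) (hd : ∀ i ≤ M, |d i| ≤ H')
    (h2 : ∀ i ≤ M, ∀ j ≤ M, i ≠ j → |d i| ≤ H ∨ |d j| ≤ H) : cf M d ∈ Ds H H' := by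
  refine ⟨by simpa [cf] using hM, fun j => ?_, fun i j hij => ?_⟩
  · unfold cf
    split_ifs with h
    · exact hd _ (by omega)
    · rw [abs_zero]; exact hH'
  · unfold cf
    by_cases hi : i ≤ M
    · by_cases hj : j ≤ M
      · rw [if_pos hi, if_pos hj]
        exact h2 _ (by omega) _ (by omega) (by omega)
      · right
        rw [if_neg hj, abs_zero]; exact hH
    · left
      rw [if_neg hi, abs_zero]; exact hH

end E1

open E1 in
/-- E1: sublevel sets of polynomials with at most one coefficient larger than `H`. -/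
theorem sublevelE {a b : ℝ} (ha : 1 < a) (hab : a ≤ b) {H : ℝ} (hH : 1 ≤ H) (H' : ℝ) : ∃ C : ℝ, 0 < C ∧
    ∀ (M : ℕ) (d : ℕ → ℝ), 1 ≤ |d M| → (∀ i ≤ M, |d i| ≤ H') → (∀ i ≤ M, ∀ j ≤ M, i ≠ j → |d i| ≤ H ∨ |d j| ≤ H) →
    ∀ ρ : ℝ, 0 < ρ → volume {x : ℝ | x ∈ Icc a b ∧ |∑ i ∈ Finset.range (M + 1), d i * x ^ i| ≤ ρ} ≤
      ENNReal.ofReal (C * (ρ * a ^ (-(M : ℝ))) ^ (1 / ((KE a H : ℝ) + 1))) := by
  rcases lt_or_ge H' 0 with hneg | hH'
  · refine ⟨1, one_pos, fun M d hM hd _ ρ _ => ?_⟩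
    have := hd M le_rfl
    linarith
  obtain ⟨μ, η, hμ, hη, hsh⟩ := shortE b ha hH H' hH'
  set K : ℕ := KE a H with hK
  have ha0 : 0 < a := by linarith
  set n : ℕ := ⌈(b - a) / η⌉₊ with hn
  set κ : ℝ := 1 / ((K : ℝ) + 1) with hκ
  have hκ0 : 0 < κ := by positivity
  -- the constant
  set C : ℝ := (((n : ℝ) + 1) * (2 ^ K * 2) + (b - a) + 1) * (2 / μ) ^ κ with hC
  have hn0 : (0 : ℝ) ≤ ((n : ℝ) + 1) * (2 ^ K * 2) := by positivity
  have hμκ : 0 < (2 / μ) ^ κ := Real.rpow_pos_of_pos (by positivity) _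
  have hC0 : 0 < C := mul_pos (by linarith) hμκ
  refine ⟨C, hC0, fun s c hcs hc hc2 ρ hρ => ?_⟩
  have hcf : cf s c ∈ Ds H H' := cf_memE (by linarith) hH' hcs hc hc2
  set r : ℝ := ρ * a ^ (-(s : ℝ)) with hr
  have hr0 : 0 < r := by positivity
  have hrκ : (2 / μ) ^ κ * r ^ κ = (2 * r / μ) ^ κ := by
    rw [← Real.mul_rpow (by positivity) hr0.le]
    congr 1
    ring
  rcases le_or_gt 1 (2 * r / μ) with hbig | hsmall
  · -- trivial bound
    have h1 : volume {x : ℝ | x ∈ Icc a b ∧ |∑ i ∈ Finset.range (s + 1), c i * x ^ i| ≤ ρ} ≤ ENNReal.ofReal (b - a) := by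
      rw [← Real.volume_Icc]
      exact measure_mono fun x hx => hx.1
    refine h1.trans (ENNReal.ofReal_le_ofReal ?_)
    have h3 : (1 : ℝ) ≤ (2 * r / μ) ^ κ := Real.one_le_rpow hbig hκ0.le
    rw [hC, mul_assoc, hrκ]
    nlinarith
  · set τ : ℝ := (2 * r / μ) ^ κ with hτ
    have hτ0 : 0 < τ := Real.rpow_pos_of_pos (by positivity) _
    have hτ1 : τ ≤ 1 := Real.rpow_le_one (by positivity) hsmall.le hκ0.le
    have hτK : τ ^ (K + 1) = 2 * r / μ := by
      rw [hτ, ← Real.rpow_natCast, ← Real.rpow_mul (by positivity), hκ]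
      have : (1 / ((K : ℝ) + 1) * ((K + 1 : ℕ) : ℝ)) = 1 := by
        push_cast
        field_simp
      rw [this, Real.rpow_one]
    have hF : ∀ x ∈ Icc a b, |∑ i ∈ Finset.range (s + 1), c i * x ^ i| ≤ ρ → |F 0 (cf s c) x| ≤ r := by
      intro x hx hxρ
      have hx0 : 0 < x := by linarith [hx.1]
      rw [← F_cf hx0.ne', abs_mul, abs_of_pos (by positivity)] at hxρ
      have h4 : a ^ s ≤ x ^ s := pow_le_pow_left₀ ha0.le hx.1 s
      have h5 : a ^ s * |F 0 (cf s c) x| ≤ ρ := (mul_le_mul_of_nonneg_right h4 (abs_nonneg _)).trans hxρ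
      rw [hr, Real.rpow_neg ha0.le, Real.rpow_natCast, ← div_eq_mul_inv, le_div_iff₀ (by positivity), mul_comm]
      exact h5
    have hshort : ∀ p q, a ≤ p → p ≤ q → q ≤ b → q - p ≤ η →
        volume (Icc p q ∩ {x : ℝ | x ∈ Icc a b ∧ |∑ i ∈ Finset.range (s + 1), c i * x ^ i| ≤ ρ}) ≤
          ENNReal.ofReal (2 ^ K * (2 * τ)) := by
      intro p q hp hpq hq hs
      obtain ⟨k, hk, hk2⟩ := hsh (cf s c) hcf p q hp hpq hq hs
      have h6 := Pool.Agent.Helper18.GP.meas_ind (a := a) (b := b) (h := fun k => F k (cf s c))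
        (fun k x hx => hasDerivAt_F (lt_of_lt_of_le ha hx.1) hcf.2.1 k) hτ0 k μ hμ p q hp hpq hq hk2
      refine (measure_mono ?_).trans (h6.trans (ENNReal.ofReal_le_ofReal ?_))
      · rintro x ⟨hx, hxI, hxρ⟩
        refine ⟨hx, (hF x hxI hxρ).trans_lt ?_⟩
        have h7 : τ ^ (K + 1) ≤ τ ^ k := pow_le_pow_of_le_one hτ0.le hτ1 (by omega)
        have h8 : μ * τ ^ (K + 1) = 2 * r := by
          rw [hτK]
          field_simp
        have h9 := mul_le_mul_of_nonneg_left h7 hμ.le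
        show r < μ * τ ^ k
        linarith
      · have h7 : (2 : ℝ) ^ k ≤ 2 ^ K := pow_le_pow_right₀ (by norm_num) hk
        have h8 : (0 : ℝ) ≤ 2 * τ := by positivity
        nlinarith
    have h10 := chop_meas (S := {x : ℝ | x ∈ Icc a b ∧ |∑ i ∈ Finset.range (s + 1), c i * x ^ i| ≤ ρ}) hη
      (by positivity) hshort n a b le_rfl hab le_rfl (by
        have h11 := Nat.le_ceil ((b - a) / η)
        rw [← hn, div_le_iff₀ hη] at h11
        push_cast
        linarith)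
    rw [Set.inter_eq_right.2 fun x hx => hx.1] at h10
    refine h10.trans (ENNReal.ofReal_le_ofReal ?_)
    rw [hC, mul_assoc, hrκ]
    push_cast
    have h12 : 0 ≤ b - a := by linarith
    nlinarith

end Pool.Agent.GE
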